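import Mathlib

namespace Pool.Agent.Results.MP_69f1cd_co.Cex

/-- arcs of the preference graph -/
def Arc {S T : Type} (u v : S × T → ℝ) (p q : S × T) : Prop :=
  (p.2 = q.2 ∧ p.1 ≠ q.1 ∧ u p < u q) ∨ (p.1 = q.1 ∧ p.2 ≠ q.2 ∧ v p < v q)

def U (p : Fin 4 × Fin 5) : ℕ :=
  ![![2, 0, 3, 3, 1], ![3, 1, 1, 0, 2], ![0, 2, 2, 1, 3], ![1, 3, 0, 2, 0]] p.1 p.2

def W (p : Fin 4 × Fin 5) : ℕ :=
  ![![4, 2, 1, 3, 0], ![3, 1, 0, 2, 4], ![1, 4, 3, 0, 2], ![0, 3, 2, 4, 1]] p.1 p.2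

def A (p q : Fin 4 × Fin 5) : Prop :=
  (p.2 = q.2 ∧ p.1 ≠ q.1 ∧ U p < U q) ∨ (p.1 = q.1 ∧ p.2 ≠ q.2 ∧ W p < W q)

instance : DecidableRel A := fun _ _ => by unfold A; infer_instance

lemma arc_iff : Arc (fun p => (U p : ℝ)) (fun p => (W p : ℝ)) = A := by
  funext p q
  simp [Arc, A]

def D1 (p : Fin 4 × Fin 5) : ℕ := ![![0, 6, 5, 6, 13], ![1, 7, 13, 8, 2], ![10, 4, 4, 9, 3], ![11, 5, 12, 6, 12]] p.1 p.2

def D2 (p : Fin 4 × Fin 5) : ℕ := ![![0, 1, 1, 1, 1], ![5, 3, 2, 2, 4], ![1, 4, 2, 2, 3], ![1, 3, 2, 2, 2]] p.1 p.2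

lemma from0 (q : Fin 4 × Fin 5) : Relation.ReflTransGen A (0, 0) q := by
  have h : ∀ q : Fin 4 × Fin 5, q = (0, 0) ∨ ∃ r, D1 r < D1 q ∧ A r q := by decide +kernel
  induction hn : D1 q using Nat.strong_induction_on generalizing q with
  | _ n ih =>
    rcases h q with rfl | ⟨r, h1, h2⟩
    · rfl
    · exact (ih (D1 r) (by omega) r rfl).tail h2

lemma to0 (q : Fin 4 × Fin 5) : Relation.ReflTransGen A q (0, 0) := by
  have h : ∀ q : Fin 4 × Fin 5, q = (0, 0) ∨ ∃ r, D2 r < D2 q ∧ A q r := by decide +kernel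
  induction hn : D2 q using Nat.strong_induction_on generalizing q with
  | _ n ih =>
    rcases h q with rfl | ⟨r, h1, h2⟩
    · rfl
    · exact (ih (D2 r) (by omega) r rfl).head h2

theorem result : ∃ u v : Fin 4 × Fin 5 → ℝ,
    (∀ s s' t, s ≠ s' → u (s, t) ≠ u (s', t)) ∧ (∀ s t t', t ≠ t' → v (s, t) ≠ v (s, t')) ∧
    (∀ p q, Relation.ReflTransGen (Arc u v) p q) ∧
    ¬ ∃ a b c d, Arc u v a b ∧ Arc u v b c ∧ Arc u v c d ∧ Arc u v d a := by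
  refine ⟨fun p => (U p : ℝ), fun p => (W p : ℝ), ?_, ?_, ?_, ?_⟩
  · have : ∀ s s' t, s ≠ s' → U (s, t) ≠ U (s', t) := by decide +kernel
    intro s s' t h
    exact fun e => this s s' t h (Nat.cast_injective e)
  · have : ∀ s t t', t ≠ t' → W (s, t) ≠ W (s, t') := by decide +kernel
    intro s t t' h
    exact fun e => this s t t' h (Nat.cast_injective e)
  · rw [arc_iff]
    exact fun p q => (to0 p).trans (from0 q)
  · rw [arc_iff]
    have : ∀ a b, A a b → ∀ c, A b c → ∀ d, A c d → ¬ A d a := by decide +kernel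
    rintro ⟨a, b, c, d, h1, h2, h3, h4⟩
    exact this a b h1 c h2 d h3 h4

end Pool.Agent.Results.MP_69f1cd_co.Cex
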